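import Pool.Agent.H89.KD.Stmts

/-!
# Module MEM of board `kd`: the classes of functions of exponential growth
-/

set_option autoImplicit false

open MeasureTheory Set Filter Topology
open scoped ContDiff

namespace Pool.Agent.H1.KD

open Pool.Agent.H84 Pool.Agent.H84.Sym Pool.Agent.H84.Sym.P2x Pool.Agent.H19.KL
open Pool.Agent.H73.KG Pool.Agent.H20.KH Pool.Agent.H89.KD

variable {E : Type} [NormedAddCommGroup E] [InnerProductSpace ℝ E]
    [FiniteDimensional ℝ E] [MeasurableSpace E] [BorelSpace E]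

theorem memLp_gc {U : E → ℝ} {t : ℝ} (hU : PP U t) {f : E → ℝ} (hf : GC f) :
    MemLp f 2 (mu U) := by
  obtain ⟨⟨C, hC⟩, -⟩ := hU
  exact (memLp_two_iff_integrable_sq hf.1.aestronglyMeasurable).2 (hf.sq.integrable hC)

theorem tL_gc {U : E → ℝ} {t : ℝ} (hU : PP U t) {f : E → ℝ} (hf : GC f) :
    tL U f = (memLp_gc hU hf).toLp f := by
  unfold tL
  rw [dif_pos (memLp_gc hU hf)]

theorem inner_tL {U : E → ℝ} {t : ℝ} (hU : PP U t) {f g : E → ℝ} (hf : GC f) (hg : GC g) :
    (inner ℝ (tL U f) (tL U g) : ℝ) = ∫ x, f x * g x ∂(mu U) := by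
  rw [tL_gc hU hf, tL_gc hU hg, L2.inner_def]
  apply integral_congr_ae
  filter_upwards [(memLp_gc hU hf).coeFn_toLp, (memLp_gc hU hg).coeFn_toLp] with x h1 h2
  rw [h1, h2]
  simp only [RCLike.inner_apply, conj_trivial]
  ring

theorem mem : ∀ (E : Type) [NormedAddCommGroup E] [InnerProductSpace ℝ E]
    [FiniteDimensional ℝ E] [MeasurableSpace E] [BorelSpace E], MEMStmt E := by
  intro E _ _ _ _ _ U t hU
  refine ⟨fun f hf => memLp_gc hU hf, ?_, ?_, fun f g hf hg => inner_tL hU hf hg, ?_, ?_⟩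
  · intro f g hf hg
    rw [tL_gc hU hf, tL_gc hU hg, tL_gc hU (hf.add hg)]
    rfl
  · intro c f hf
    rw [tL_gc hU hf, tL_gc hU ((GC.const c).mul hf)]
    rfl
  · intro f hf
    rw [← real_inner_self_eq_norm_sq, inner_tL hU hf hf]
    apply integral_congr_ae
    filter_upwards with x
    ring
  · have h1 : ‖tL U (fun _ => (1:ℝ))‖ ^ 2 = 1 := by
      rw [← real_inner_self_eq_norm_sq, inner_tL hU (GC.const 1) (GC.const 1)]
      have := hU.2
      simp
    have h2 : 0 ≤ ‖tL U (fun _ => (1:ℝ))‖ := norm_nonneg _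
    nlinarith

end Pool.Agent.H1.KD
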